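import Mathlib

set_option autoImplicit false

/-! Quadratic extensions and formal smoothness: if `B[t]/(t^2-T)` is formally smooth over `k`
then so is `B`. -/

namespace Pool.Agent.Helper26.FQ

open QuadraticAlgebra

universe u v

variable {k : Type u} [CommRing k]

/-- The map of quadratic algebras induced by a homomorphism of the base rings. -/
def qmap {C D : Type*} [CommRing C] [CommRing D] [Algebra k C] [Algebra k D] (f : C →ₐ[k] D)
    (T : C) (S : D) (h : f T = S) : QuadraticAlgebra C T 0 →ₐ[k] QuadraticAlgebra D S 0 where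
  toFun z := ⟨f z.re, f z.im⟩
  map_one' := by ext <;> simp
  map_mul' x y := by subst h; ext <;> simp
  map_zero' := by ext <;> simp
  map_add' x y := by ext <;> simp
  commutes' r := by
    ext
    · change f ((algebraMap k C) r) = algebraMap k D r
      simp
    · change f 0 = 0
      simp

theorem formallySmooth_of_quadratic {B : Type v} [CommRing B] [Algebra k B] (T : B)
    [Algebra.FormallySmooth k (QuadraticAlgebra B T 0)] : Algebra.FormallySmooth k B := by
  refine Algebra.FormallySmooth.of_comp_surjective ?_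
  intro C _ _ I hI φ
  obtain ⟨T', hT'⟩ := Ideal.Quotient.mk_surjective (φ T)
  let g : QuadraticAlgebra C T' 0 →ₐ[k] QuadraticAlgebra (C ⧸ I) (φ T) 0 :=
    qmap (Ideal.Quotient.mkₐ k I) T' (φ T) hT'
  have hg : Function.Surjective g := by
    rintro ⟨x, y⟩
    obtain ⟨x', rfl⟩ := Ideal.Quotient.mk_surjective x
    obtain ⟨y', rfl⟩ := Ideal.Quotient.mk_surjective y
    exact ⟨⟨x', y'⟩, rfl⟩
  have hmul : ∀ a ∈ I, ∀ b ∈ I, a * b = 0 := by
    intro a ha b hb
    have : a * b ∈ I ^ 2 := by rw [pow_two]; exact Ideal.mul_mem_mul ha hb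
    rw [hI] at this
    exact this
  have hker : ∀ z, z ∈ RingHom.ker (g : QuadraticAlgebra C T' 0 →+* QuadraticAlgebra (C ⧸ I) (φ T) 0) ↔ z.re ∈ I ∧ z.im ∈ I := by
    intro z
    rw [RingHom.mem_ker]
    constructor
    · intro h
      have h1 := congrArg QuadraticAlgebra.re h
      have h2 := congrArg QuadraticAlgebra.im h
      exact ⟨Ideal.Quotient.eq_zero_iff_mem.1 h1, Ideal.Quotient.eq_zero_iff_mem.1 h2⟩
    · rintro ⟨h1, h2⟩
      ext
      · exact Ideal.Quotient.eq_zero_iff_mem.2 h1
      · exact Ideal.Quotient.eq_zero_iff_mem.2 h2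
  have hnil : IsNilpotent (RingHom.ker (g : QuadraticAlgebra C T' 0 →+* QuadraticAlgebra (C ⧸ I) (φ T) 0)) := by
    refine ⟨2, ?_⟩
    rw [pow_two, Ideal.zero_eq_bot, eq_bot_iff, Ideal.mul_le]
    intro x hx y hy
    obtain ⟨hx1, hx2⟩ := (hker x).1 hx
    obtain ⟨hy1, hy2⟩ := (hker y).1 hy
    rw [Ideal.mem_bot]
    ext
    · simp [hmul _ hx1 _ hy1, mul_assoc, hmul _ hx2 _ hy2]
    · simp [hmul _ hx1 _ hy2, hmul _ hx2 _ hy1]
  let ψ : QuadraticAlgebra B T 0 →ₐ[k] QuadraticAlgebra C T' 0 :=
    Algebra.FormallySmooth.liftOfSurjective (qmap φ T (φ T) rfl) g hg hnil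
  have hψ : ∀ z, g (ψ z) = qmap φ T (φ T) rfl z := fun z =>
    Algebra.FormallySmooth.liftOfSurjective_apply (qmap φ T (φ T) rfl) g hg hnil z
  have hre : ∀ b : B, Ideal.Quotient.mk I (ψ (algebraMap B _ b)).re = φ b := fun b =>
    congrArg QuadraticAlgebra.re (hψ (algebraMap B _ b))
  have him : ∀ b : B, (ψ (algebraMap B _ b)).im ∈ I := by
    intro b
    have := congrArg QuadraticAlgebra.im (hψ (algebraMap B _ b))
    have h0 : (qmap φ T (φ T) rfl (algebraMap B (QuadraticAlgebra B T 0) b)).im = 0 := by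
      change φ 0 = 0
      simp
    rw [h0] at this
    exact Ideal.Quotient.eq_zero_iff_mem.1 this
  refine ⟨{ toFun := fun b => (ψ (algebraMap B _ b)).re
            map_one' := by simp
            map_mul' := fun x y => by
              rw [map_mul, map_mul, re_mul]
              simp [mul_assoc, hmul _ (him x) _ (him y)]
            map_zero' := by simp
            map_add' := fun x y => by simp
            commutes' := fun r => by
              rw [← IsScalarTower.algebraMap_apply k B, AlgHom.commutes]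
              rfl }, ?_⟩
  ext b
  exact hre b

end Pool.Agent.Helper26.FQ
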