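import Mathlib
import Pool.Agent.Helper26.FQ.Quad

set_option autoImplicit false

/-! Characteristic two: if `A = B[t]/(t^2-T)` is formally smooth over `k` then there is a
derivation `δ : B → A` with `δ T = 1`. -/

namespace Pool.Agent.Helper26.FQ

open QuadraticAlgebra

universe u v

variable {k : Type u} [CommRing k]

/-- `t ↦ t + s`, `s^2 = 0`. -/
def shift {B : Type v} [CommRing B] [Algebra k B] (h2 : (2 : B) = 0) (T : B) :
    QuadraticAlgebra B T 0 →ₐ[k] QuadraticAlgebra (QuadraticAlgebra B T 0) 0 0 where
  toFun z := ⟨z, algebraMap B _ z.im⟩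
  map_one' := by
    ext <;> simp
  map_mul' x y := by
    have h : x.im * y.im + y.im * x.im = 0 := by
      linear_combination (x.im * y.im) * h2
    ext
    · simp
    · simp
    · simp
    · simp
      linear_combination -h
  map_zero' := by ext <;> simp
  map_add' x y := by ext <;> simp
  commutes' r := by
    ext
    · rfl
    · rfl
    · change (0 : B) = 0
      rfl
    · change (0 : B) = 0
      rfl

theorem exists_derivation {B : Type v} [CommRing B] [Algebra k B] (h2 : (2 : B) = 0) (T : B)
    [Algebra.FormallySmooth k (QuadraticAlgebra B T 0)] :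
    ∃ δ : Derivation k B (QuadraticAlgebra B T 0), δ T = 1 := by
  let A := QuadraticAlgebra B T 0
  let g : QuadraticAlgebra (DualNumber A) DualNumber.eps 0 →ₐ[k] QuadraticAlgebra A 0 0 :=
    qmap (TrivSqZeroExt.fstHom k A A) DualNumber.eps 0 (by rfl)
  have hg : Function.Surjective g := by
    rintro ⟨x, y⟩
    exact ⟨⟨TrivSqZeroExt.inl x, TrivSqZeroExt.inl y⟩, rfl⟩
  have hker : ∀ z, z ∈ RingHom.ker (g : QuadraticAlgebra (DualNumber A) DualNumber.eps 0 →+*
      QuadraticAlgebra A 0 0) ↔ z.re.fst = 0 ∧ z.im.fst = 0 := by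
    intro z
    rw [RingHom.mem_ker]
    constructor
    · intro h
      exact ⟨congrArg QuadraticAlgebra.re h, congrArg QuadraticAlgebra.im h⟩
    · rintro ⟨h1, h2⟩
      exact QuadraticAlgebra.ext h1 h2
  have hmul : ∀ a b : DualNumber A, a.fst = 0 → b.fst = 0 → a * b = 0 := by
    intro a b ha hb
    refine TrivSqZeroExt.ext ?_ ?_
    · rw [TrivSqZeroExt.fst_mul, ha, zero_mul]
      rfl
    · rw [TrivSqZeroExt.snd_mul, ha, hb]
      simp
  have hnil : IsNilpotent (RingHom.ker (g : QuadraticAlgebra (DualNumber A) DualNumber.eps 0 →+*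
      QuadraticAlgebra A 0 0)) := by
    refine ⟨2, ?_⟩
    rw [pow_two, Ideal.zero_eq_bot, eq_bot_iff, Ideal.mul_le]
    intro x hx y hy
    obtain ⟨hx1, hx2⟩ := (hker x).1 hx
    obtain ⟨hy1, hy2⟩ := (hker y).1 hy
    rw [Ideal.mem_bot]
    refine QuadraticAlgebra.ext ?_ ?_
    · rw [re_mul, hmul _ _ hx1 hy1, mul_assoc, hmul _ _ hx2 hy2]
      simp
    · rw [im_mul, hmul _ _ hx1 hy2, hmul _ _ hx2 hy1]
      simp
  let ψ : A →ₐ[k] QuadraticAlgebra (DualNumber A) DualNumber.eps 0 :=
    Algebra.FormallySmooth.liftOfSurjective (shift h2 T) g hg hnil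
  have hψ : ∀ z, g (ψ z) = shift (k := k) h2 T z := fun z =>
    Algebra.FormallySmooth.liftOfSurjective_apply (shift h2 T) g hg hnil z
  have hre : ∀ b : B, (ψ (algebraMap B _ b)).re.fst = algebraMap B A b := fun b =>
    congrArg QuadraticAlgebra.re (hψ (algebraMap B _ b))
  have him : ∀ b : B, (ψ (algebraMap B _ b)).im.fst = 0 := by
    intro b
    have := congrArg QuadraticAlgebra.im (hψ (algebraMap B _ b))
    refine this.trans ?_
    change algebraMap B A (0 : B) = 0
    simp
  have hmulre : ∀ x y : B, (ψ (algebraMap B _ (x * y))).re =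
      (ψ (algebraMap B _ x)).re * (ψ (algebraMap B _ y)).re := by
    intro x y
    rw [map_mul, map_mul, re_mul, mul_assoc, hmul _ _ (him x) (him y)]
    simp
  refine ⟨{ toFun := fun b => (ψ (algebraMap B _ b)).re.snd
            map_add' := fun x y => by simp
            map_smul' := fun r x => by
              have : algebraMap B A (r • x) = r • algebraMap B A x := by
                rw [Algebra.smul_def, map_mul, ← IsScalarTower.algebraMap_apply,
                  Algebra.smul_def]
              rw [this, map_smul]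
              rfl
            map_one_eq_zero' := by
              change (ψ (algebraMap B _ 1)).re.snd = 0
              simp
            leibniz' := fun x y => by
              change (ψ (algebraMap B _ (x * y))).re.snd = _
              rw [hmulre, TrivSqZeroExt.snd_mul, hre, hre]
              rw [algebraMap_smul, op_smul_eq_smul, algebraMap_smul]
              rfl }, ?_⟩
  change (ψ (algebraMap B _ T)).re.snd = 1
  have hω : (algebraMap B A T) = (⟨0, 1⟩ : A) * ⟨0, 1⟩ := by
    refine QuadraticAlgebra.ext ?_ ?_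
    · rw [re_mul]
      simp
      rfl
    · rw [im_mul]
      simp
      rfl
  have h1 : (ψ ⟨0, 1⟩).im.fst = 1 := by
    have := congrArg QuadraticAlgebra.im (hψ ⟨0, 1⟩)
    refine this.trans ?_
    change algebraMap B A (1 : B) = 1
    simp
  have h2A : (2 : A) = 0 := by
    have := congrArg (algebraMap B A) h2
    rw [map_zero] at this
    rw [← this]
    exact (map_ofNat (algebraMap B A) 2).symm
  rw [hω, map_mul, re_mul, TrivSqZeroExt.snd_add, TrivSqZeroExt.snd_mul, TrivSqZeroExt.snd_mul,
    TrivSqZeroExt.fst_mul]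
  rw [op_smul_eq_smul, op_smul_eq_smul, h1]
  have h3 : (DualNumber.eps * (ψ ⟨0, 1⟩).im : DualNumber A).snd = 1 := by
    rw [TrivSqZeroExt.snd_mul, h1, DualNumber.fst_eps, DualNumber.snd_eps, op_smul_eq_smul,
      one_smul, zero_smul, zero_add]
  rw [h3, DualNumber.fst_eps, zero_mul, zero_smul, one_smul, zero_add, ← two_mul, h2A, zero_mul,
    zero_add]

end Pool.Agent.Helper26.FQ
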