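import Mathlib
import Pool.Agent.Helper26.FQ.Der

set_option autoImplicit false

/-! Characteristic two: `D : A → A` a `k`-derivation with `D ∘ D = 0` and `D t = 1`. Then
`A = B + B t` for `B = ker D`, and `A` formally smooth over `k` gives `B` formally smooth over `k`
and a derivation `δ : B → A` with `δ (t^2) = 1`. -/

namespace Pool.Agent.Helper26.FQ

open QuadraticAlgebra

universe u v

variable {k : Type u} [CommRing k] {A : Type v} [CommRing A] [Algebra k A]

/-- The subalgebra of constants of a derivation. -/
def kerD (D : Derivation k A A) : Subalgebra k A where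
  carrier := {a | D a = 0}
  mul_mem' := by
    intro a b ha hb
    change D a = 0 at ha
    change D b = 0 at hb
    change D (a * b) = 0
    rw [D.leibniz, ha, hb]
    simp
  add_mem' := by
    intro a b ha hb
    change D a = 0 at ha
    change D b = 0 at hb
    change D (a + b) = 0
    rw [map_add, ha, hb, add_zero]
  algebraMap_mem' := by
    intro r
    change D (algebraMap k A r) = 0
    simp

theorem mem_kerD {D : Derivation k A A} {a : A} : a ∈ kerD D ↔ D a = 0 := Iff.rfl

theorem sq_mem_kerD (h2 : (2 : A) = 0) (D : Derivation k A A) (a : A) : a ^ 2 ∈ kerD D := by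
  rw [mem_kerD, D.leibniz_pow]
  simp [h2]

/-- `A = B[t]/(t^2 - T)`. -/
def kerEquiv (h2 : (2 : A) = 0) (D : Derivation k A A) (hD : ∀ a, D (D a) = 0) (t : A)
    (ht : D t = 1) :
    QuadraticAlgebra (kerD D) ⟨t ^ 2, sq_mem_kerD h2 D t⟩ 0 ≃ₐ[k] A where
  toFun z := z.re + z.im * t
  invFun a := ⟨⟨a - D a * t, by
    rw [mem_kerD, map_sub, D.leibniz, hD a, ht]; simp⟩, ⟨D a, hD a⟩⟩
  left_inv z := by
    have h1 : D (z.re : A) = 0 := z.re.2
    have h3 : D (z.im : A) = 0 := z.im.2
    have h4 : D ((z.re : A) + z.im * t) = z.im := by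
      rw [map_add, D.leibniz, h1, h3, ht]
      simp
    refine QuadraticAlgebra.ext (Subtype.ext ?_) (Subtype.ext ?_)
    · change (z.re : A) + z.im * t - D ((z.re : A) + z.im * t) * t = z.re
      rw [h4]
      ring
    · exact h4
  right_inv a := by
    change a - D a * t + D a * t = a
    ring
  map_mul' x y := by
    rw [re_mul, im_mul]
    push_cast
    simp only [zero_mul, add_zero]
    ring
  map_add' x y := by
    rw [re_add, im_add]
    push_cast
    ring
  commutes' r := by
    change algebraMap k A r + ((0 : kerD D) : A) * t = algebraMap k A r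
    simp

theorem formallySmooth_kerD (h2 : (2 : A) = 0) (D : Derivation k A A) (hD : ∀ a, D (D a) = 0)
    (t : A) (ht : D t = 1) [Algebra.FormallySmooth k A] : Algebra.FormallySmooth k (kerD D) := by
  have := Algebra.FormallySmooth.of_equiv (kerEquiv h2 D hD t ht).symm
  exact formallySmooth_of_quadratic ⟨t ^ 2, sq_mem_kerD h2 D t⟩

theorem exists_derivation_kerD (h2 : (2 : A) = 0) (D : Derivation k A A)
    (hD : ∀ a, D (D a) = 0) (t : A) (ht : D t = 1) [Algebra.FormallySmooth k A] :
    ∃ δ : Derivation k (kerD D) A, δ ⟨t ^ 2, sq_mem_kerD h2 D t⟩ = 1 := by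
  have := Algebra.FormallySmooth.of_equiv (kerEquiv h2 D hD t ht).symm
  have h2' : (2 : kerD D) = 0 := Subtype.ext h2
  obtain ⟨δ, hδ⟩ := exists_derivation (k := k) h2' ⟨t ^ 2, sq_mem_kerD h2 D t⟩
  let e := kerEquiv h2 D hD t ht
  have he : ∀ b : kerD D, e (algebraMap (kerD D) _ b) = b := by
    intro b
    change (b : A) + ((0 : kerD D) : A) * t = b
    simp
  refine ⟨{ toFun := fun b => e (δ b)
            map_add' := fun x y => by simp
            map_smul' := fun r x => by simp
            map_one_eq_zero' := by
              change e (δ 1) = 0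
              simp
            leibniz' := fun x y => by
              change e (δ (x * y)) = x • e (δ y) + y • e (δ x)
              rw [δ.leibniz, map_add, Algebra.smul_def, Algebra.smul_def, map_mul, map_mul, he, he]
              rfl }, ?_⟩
  change e (δ _) = 1
  rw [hδ, map_one]

end Pool.Agent.Helper26.FQ
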