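import Mathlib

set_option autoImplicit false

/-! The Jacobian criterion for two equations: `P = k[σ]`, `F₁ F₂ : P`,
`m = ∂ᵢF₁ ∂ⱼF₂ - ∂ⱼF₁ ∂ᵢF₂`. The localisation of `P/(F₁,F₂)` at a multiple of `m` is formally
smooth over `k`. -/

namespace Pool.Agent.Helper26.FQ

open MvPolynomial

universe u v w

variable {k : Type u} [CommRing k] {σ : Type v}

/-- First order Taylor expansion. -/
theorem aeval_add_of_sq {C : Type*} [CommRing C] [Algebra k C] [Fintype σ] (c e : σ → C)
    (he : ∀ a b, e a * e b = 0) (F : MvPolynomial σ k) :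
    aeval (fun a => c a + e a) F = aeval c F + ∑ a, aeval c (pderiv a F) * e a := by
  induction F using MvPolynomial.induction_on with
  | C r => simp
  | add p q hp hq =>
    rw [map_add, hp, hq, map_add]
    simp only [map_add, add_mul, Finset.sum_add_distrib]
    ring
  | mul_X p b hp =>
    classical
    rw [map_mul, hp, aeval_X, map_mul, aeval_X]
    have h1 : ∀ a, aeval c (pderiv a (p * X b)) * e a =
        aeval c (pderiv a p) * e a * c b + (if a = b then aeval c p * e a else 0) := by
      intro a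
      rw [Derivation.leibniz, pderiv_X]
      by_cases hab : a = b
      · subst hab
        simp
        ring
      · rw [if_neg hab, Pi.single_eq_of_ne' hab]
        simp
        ring
    rw [Finset.sum_congr rfl (fun a _ => h1 a), Finset.sum_add_distrib, ← Finset.sum_mul,
      Finset.sum_ite_eq' Finset.univ b, if_pos (Finset.mem_univ b)]
    have h2 : (∑ a, aeval c (pderiv a p) * e a) * e b = 0 := by
      rw [Finset.sum_mul]
      exact Finset.sum_eq_zero fun a _ => by rw [mul_assoc, he, mul_zero]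
    linear_combination h2

/-- The Jacobian minor of two polynomials. -/
noncomputable def minor (F₁ F₂ : MvPolynomial σ k) (i j : σ) : MvPolynomial σ k :=
  pderiv i F₁ * pderiv j F₂ - pderiv j F₁ * pderiv i F₂

theorem formallySmooth_of_minor [Finite σ] (F₁ F₂ h : MvPolynomial σ k) (i j : σ) (hij : i ≠ j)
    (hm : minor F₁ F₂ i j ∣ h) (S : Type w) [CommRing S]
    [Algebra (MvPolynomial σ k ⧸ Ideal.span {F₁, F₂}) S] [Algebra k S]
    [IsScalarTower k (MvPolynomial σ k ⧸ Ideal.span {F₁, F₂}) S]
    [IsLocalization.Away (Ideal.Quotient.mk (Ideal.span {F₁, F₂}) h) S] :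
    Algebra.FormallySmooth k S := by
  classical
  have := Fintype.ofFinite σ
  refine Algebra.FormallySmooth.of_comp_surjective ?_
  intro C _ _ I hI φ
  have hmul : ∀ a ∈ I, ∀ b ∈ I, a * b = 0 := by
    intro a ha b hb
    have : a * b ∈ I ^ 2 := by rw [pow_two]; exact Ideal.mul_mem_mul ha hb
    rw [hI] at this
    exact this
  have hunit : ∀ c : C, IsUnit (Ideal.Quotient.mk I c) → IsUnit c := by
    intro c hc
    obtain ⟨d, hd⟩ := hc.exists_right_inv
    obtain ⟨d, rfl⟩ := Ideal.Quotient.mk_surjective d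
    rw [← map_mul, ← map_one (Ideal.Quotient.mk I), Ideal.Quotient.eq] at hd
    have h1 : (c * d - 1) * (c * d - 1) = 0 := hmul _ hd _ hd
    refine IsUnit.of_mul_eq_one (d * (2 - c * d)) ?_
    linear_combination -h1
  -- the composite `P → S → C ⧸ I`
  let q : MvPolynomial σ k →ₐ[k] MvPolynomial σ k ⧸ Ideal.span {F₁, F₂} :=
    Ideal.Quotient.mkₐ k _
  let π : MvPolynomial σ k →ₐ[k] S := (IsScalarTower.toAlgHom k _ S).comp q
  have hπ : ∀ p, π p = algebraMap (MvPolynomial σ k ⧸ Ideal.span {F₁, F₂}) S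
      (Ideal.Quotient.mk _ p) := fun p => rfl
  choose c hc using fun a : σ => Ideal.Quotient.mk_surjective (φ (π (X a)))
  have hφ : ∀ (e : σ → C), (∀ a, e a ∈ I) → ∀ p,
      Ideal.Quotient.mk I (aeval (fun a => c a + e a) p) = φ (π p) := by
    intro e he p
    have : ((Ideal.Quotient.mkₐ k I).comp (aeval (fun a => c a + e a))) = φ.comp π := by
      refine MvPolynomial.algHom_ext fun a => ?_
      change Ideal.Quotient.mk I (aeval (fun a => c a + e a) (X a)) = φ (π (X a))
      rw [aeval_X, map_add, hc, Ideal.Quotient.eq_zero_iff_mem.2 (he a), add_zero]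
    exact congrArg (fun f : MvPolynomial σ k →ₐ[k] C ⧸ I => f p) this
  have hφ0 : ∀ p, Ideal.Quotient.mk I (aeval c p) = φ (π p) := by
    intro p
    have := hφ (fun _ => 0) (fun _ => I.zero_mem) p
    simpa using this
  have hπF : ∀ F ∈ ({F₁, F₂} : Set (MvPolynomial σ k)), π F = 0 := by
    intro F hF
    rw [hπ, Ideal.Quotient.eq_zero_iff_mem.2 (Ideal.subset_span hF), map_zero]
  have h1 : aeval c F₁ ∈ I := Ideal.Quotient.eq_zero_iff_mem.1 (by
    rw [hφ0, hπF _ (by simp), map_zero])
  have h2 : aeval c F₂ ∈ I := Ideal.Quotient.eq_zero_iff_mem.1 (by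
    rw [hφ0, hπF _ (by simp), map_zero])
  have hh : IsUnit (φ (π h)) := by
    rw [hπ]
    exact (IsLocalization.Away.algebraMap_isUnit (Ideal.Quotient.mk (Ideal.span {F₁, F₂}) h)).map φ
  obtain ⟨g, hg⟩ := hm
  have hmin : IsUnit (aeval c (minor F₁ F₂ i j)) := by
    apply hunit
    rw [hφ0]
    refine isUnit_of_mul_isUnit_left (y := φ (π g)) ?_
    rw [← map_mul, ← map_mul, ← hg]
    exact hh
  obtain ⟨n, hn⟩ := hmin.exists_right_inv
  -- the correction
  let a11 := aeval c (pderiv i F₁)
  let a12 := aeval c (pderiv j F₁)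
  let a21 := aeval c (pderiv i F₂)
  let a22 := aeval c (pderiv j F₂)
  have hn' : (a11 * a22 - a12 * a21) * n = 1 := by
    rw [← hn, minor, map_sub, map_mul, map_mul]
  let ei : C := -(n * (a22 * aeval c F₁ - a12 * aeval c F₂))
  let ej : C := -(n * (a11 * aeval c F₂ - a21 * aeval c F₁))
  have hei : ei ∈ I := I.neg_mem (I.mul_mem_left _ (I.sub_mem (I.mul_mem_left _ h1)
    (I.mul_mem_left _ h2)))
  have hej : ej ∈ I := I.neg_mem (I.mul_mem_left _ (I.sub_mem (I.mul_mem_left _ h2)
    (I.mul_mem_left _ h1)))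
  let e : σ → C := fun a => if a = i then ei else if a = j then ej else 0
  have he : ∀ a, e a ∈ I := by
    intro a
    by_cases h1 : a = i
    · simp only [e, if_pos h1]; exact hei
    · by_cases h2 : a = j
      · simp only [e, if_neg h1, if_pos h2]; exact hej
      · simp only [e, if_neg h1, if_neg h2]; exact I.zero_mem
  have hsum : ∀ F : MvPolynomial σ k, aeval (fun a => c a + e a) F =
      aeval c F + (aeval c (pderiv i F) * ei + aeval c (pderiv j F) * ej) := by
    intro F
    rw [aeval_add_of_sq c e (fun a b => hmul _ (he a) _ (he b))]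
    congr 1
    rw [Finset.sum_eq_add_of_mem i j (Finset.mem_univ i) (Finset.mem_univ j) hij]
    · simp only [e, if_true, if_neg hij.symm]
    · intro a _ ha
      simp only [e, if_neg ha.1, if_neg ha.2, mul_zero]
  have hF1 : aeval (fun a => c a + e a) F₁ = 0 := by
    rw [hsum]
    change aeval c F₁ + (a11 * -(n * (a22 * aeval c F₁ - a12 * aeval c F₂)) +
      a12 * -(n * (a11 * aeval c F₂ - a21 * aeval c F₁))) = 0
    linear_combination -(aeval c F₁) * hn'
  have hF2 : aeval (fun a => c a + e a) F₂ = 0 := by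
    rw [hsum]
    change aeval c F₂ + (a21 * -(n * (a22 * aeval c F₁ - a12 * aeval c F₂)) +
      a22 * -(n * (a11 * aeval c F₂ - a21 * aeval c F₁))) = 0
    linear_combination -(aeval c F₂) * hn'
  let f0 : MvPolynomial σ k ⧸ Ideal.span {F₁, F₂} →ₐ[k] C :=
    Ideal.Quotient.liftₐ _ (aeval (fun a => c a + e a)) (by
      intro p hp
      have : Ideal.span {F₁, F₂} ≤ RingHom.ker (aeval (fun a => c a + e a) :
          MvPolynomial σ k →ₐ[k] C) := by
        rw [Ideal.span_le]
        rintro F (rfl | rfl)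
        · exact hF1
        · exact hF2
      exact this hp)
  have hf0 : ∀ p, f0 (Ideal.Quotient.mk _ p) = aeval (fun a => c a + e a) p := fun p => rfl
  have hu : IsUnit (f0 (Ideal.Quotient.mk _ h)) := by
    rw [hf0]
    apply hunit
    rw [hφ e he]
    exact hh
  let f : S →+* C := IsLocalization.Away.lift (Ideal.Quotient.mk (Ideal.span {F₁, F₂}) h)
    (g := (f0 : MvPolynomial σ k ⧸ Ideal.span {F₁, F₂} →+* C)) hu
  have hf : ∀ x, f (algebraMap (MvPolynomial σ k ⧸ Ideal.span {F₁, F₂}) S x) = f0 x := fun x =>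
    IsLocalization.Away.lift_eq _ hu x
  refine ⟨{ f with commutes' := fun r => ?_ }, ?_⟩
  · change f (algebraMap k S r) = algebraMap k C r
    rw [IsScalarTower.algebraMap_apply k (MvPolynomial σ k ⧸ Ideal.span {F₁, F₂}) S, hf,
      AlgHom.commutes]
  · refine AlgHom.coe_ringHom_injective ?_
    refine IsLocalization.ringHom_ext
      (Submonoid.powers (Ideal.Quotient.mk (Ideal.span {F₁, F₂}) h)) ?_
    refine RingHom.ext fun x => ?_
    obtain ⟨p, rfl⟩ := Ideal.Quotient.mk_surjective x
    change Ideal.Quotient.mk I (f (algebraMap _ S (Ideal.Quotient.mk _ p))) =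
      φ (algebraMap _ S (Ideal.Quotient.mk _ p))
    rw [hf, hf0, hφ e he, hπ]

end Pool.Agent.Helper26.FQ
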