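import Mathlib

set_option autoImplicit false

/-! A retract of a formally smooth algebra is formally smooth. -/

namespace Pool.Agent.Helper26.FQ

variable {k B C : Type*} [CommRing k] [CommRing B] [CommRing C] [Algebra k B] [Algebra k C]

theorem formallySmooth_of_retract (i : B →ₐ[k] C) (r : C →ₐ[k] B) (h : ∀ b, r (i b) = b)
    [Algebra.FormallySmooth k C] : Algebra.FormallySmooth k B := by
  refine Algebra.FormallySmooth.of_comp_surjective ?_
  intro D _ _ I hI φ
  obtain ⟨ψ, hψ⟩ := Algebra.FormallySmooth.comp_surjective k C I hI (φ.comp r)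
  refine ⟨ψ.comp i, ?_⟩
  ext b
  have := congrArg (fun f : C →ₐ[k] D ⧸ I => f (i b)) hψ
  refine this.trans ?_
  change φ (r (i b)) = φ b
  rw [h]

end Pool.Agent.Helper26.FQ
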